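import Pool.Agent.V11122.Hd.Trace

/-! Deleting few points so that few half-space sets contain a given proportion of the rest. -/

set_option autoImplicit false

namespace Pool.Agent.V11122.Hd

open Finset

variable {d n : ℕ}

open scoped Classical in
/-- the number of half-space sets that contain exactly `⌊α m⌋` of the `m` points outside `D` -/
noncomputable def partCount (p : Fin n → (Fin d → ℝ)) (α : ℝ) (D : Finset (Fin n)) : ℕ :=
  ((traces p).filter (fun A => (A \ D).card = ⌊α * Dᶜ.card⌋₊)).card

theorem exists_sb {m : ℕ} (C : Fin m → Finset (Fin n)) :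
    ∃ g : Fin m → ℕ → Finset (Fin n), ∀ i k, k ≤ (C i).card → g i k ⊆ C i ∧ (g i k).card = k := by
  have : ∀ i : Fin m, ∀ k : ℕ, ∃ t : Finset (Fin n), k ≤ (C i).card → t ⊆ C i ∧ t.card = k := by
    intro i k
    by_cases h : k ≤ (C i).card
    · obtain ⟨t, h1, h2⟩ := exists_subset_card_eq h
      exact ⟨t, fun _ => ⟨h1, h2⟩⟩
    · exact ⟨∅, fun h' => absurd h' h⟩
  choose g hg using this
  exact ⟨g, hg⟩

theorem avg {p : Fin n → (Fin d → ℝ)} {α : ℝ} (hα : 0 ≤ α) {s : ℕ} (hs1 : 1 ≤ s * α)
    (hs2 : 1 ≤ s * (1 - α)) {m : ℕ} {C : Fin (m + 1) → Finset (Fin n)}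
    (hdis : ∀ i j, i ≠ j → Disjoint (C i) (C j))
    (hmiss : ∀ A ∈ traces p, ∃ i, C i ⊆ A ∨ Disjoint (C i) A) {T' : ℕ} (hT : 0 < T')
    (hsize : ∀ i, s * (T' - 1) ≤ (C i).card) :
    ∃ D : Finset (Fin n), D.card ≤ (m + 1) * (s * (T' - 1)) ∧
      partCount p α D * T' ≤ (traces p).card := by
  classical
  obtain ⟨g, hg⟩ := exists_sb C
  set G : (Fin (m + 1) → Fin T') → Fin (m + 1) → Finset (Fin n) := fun t i => g i (s * t i) with hG
  have hle : ∀ (i : Fin (m + 1)) (x : Fin T'), s * (x : ℕ) ≤ s * (T' - 1) := by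
    intro i x
    have := x.2
    exact Nat.mul_le_mul_left _ (by omega)
  have hGs : ∀ t i, G t i ⊆ C i ∧ (G t i).card = s * t i := fun t i =>
    hg i _ ((hle i (t i)).trans (hsize i))
  set D : (Fin (m + 1) → Fin T') → Finset (Fin n) := fun t => univ.biUnion (G t) with hDdef
  have hGd : ∀ t, ∀ i j, i ≠ j → Disjoint (G t i) (G t j) := fun t i j hij =>
    (hdis i j hij).mono (hGs t i).1 (hGs t j).1
  have hDc : ∀ t, (D t).card = ∑ i, s * (t i : ℕ) := by
    intro t
    rw [hDdef]
    simp only
    rw [card_biUnion (fun i _ j _ hij => hGd t i j hij)]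
    exact sum_congr rfl fun i _ => (hGs t i).2
  have hDi : ∀ (S : Finset (Fin n)) (t : Fin (m + 1) → Fin T'),
      (S ∩ D t).card = ∑ i, (S ∩ G t i).card := by
    intro S t
    rw [hDdef]
    simp only
    rw [inter_biUnion, card_biUnion]
    intro i _ j _ hij
    exact (hGd t i j hij).mono inter_subset_right inter_subset_right
  have hDle : ∀ t, (D t).card ≤ (m + 1) * (s * (T' - 1)) := by
    intro t
    rw [hDc]
    calc ∑ i, s * (t i : ℕ) ≤ ∑ _i : Fin (m + 1), s * (T' - 1) :=
          sum_le_sum fun i _ => hle i (t i)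
      _ = (m + 1) * (s * (T' - 1)) := by
          rw [sum_const, card_univ, Fintype.card_fin, smul_eq_mul]
  have hfew : ∀ A ∈ traces p, (univ.filter (fun t : Fin (m + 1) → Fin T' =>
      (A \ D t).card = ⌊α * (D t)ᶜ.card⌋₊)).card ≤ T' ^ m := by
    intro A hA
    obtain ⟨i, hi⟩ := hmiss A hA
    have hcard : Fintype.card ({j : Fin (m + 1) // j ≠ i} → Fin T') = T' ^ m := by
      rw [Fintype.card_fun, Fintype.card_fin]
      congr 1
      simp
    rw [← hcard, ← card_univ]
    apply card_le_card_of_injOn (fun t => fun j : {j : Fin (m + 1) // j ≠ i} => t j)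
    · intro t _
      exact mem_coe.mpr (mem_univ _)
    · intro t ht t' ht' h
      rw [mem_coe, mem_filter] at ht ht'
      have hj : ∀ j, j ≠ i → t j = t' j := fun j hj => congrFun h ⟨j, hj⟩
      -- the sums
      have hsumc : ∀ f : Fin (m + 1) → Fin T' → ℝ,
          ∑ j, f j (t j) - ∑ j, f j (t' j) = f i (t i) - f i (t' i) := by
        intro f
        rw [← add_sum_erase _ _ (mem_univ i), ← add_sum_erase _ (fun j => f j (t' j)) (mem_univ i)]
        have : ∑ j ∈ univ.erase i, f j (t j) = ∑ j ∈ univ.erase i, f j (t' j) := by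
          apply sum_congr rfl
          intro j hj'
          rw [hj j (ne_of_mem_erase hj')]
        rw [this]
        ring
      have hm : ∀ t : Fin (m + 1) → Fin T', (((D t)ᶜ.card : ℕ) : ℝ) =
          n - ∑ j, (s : ℝ) * (t j : ℕ) := by
        intro t
        have h1 := card_add_card_compl (D t)
        rw [Fintype.card_fin, hDc] at h1
        have h2 : ((∑ i, s * (t i : ℕ) : ℕ) : ℝ) + ((D t)ᶜ.card : ℕ) = n := by exact_mod_cast h1
        push_cast at h2
        linarith
      have ha : ∀ t : Fin (m + 1) → Fin T', (((A \ D t).card : ℕ) : ℝ) =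
          A.card - ∑ j, (((A ∩ G t j).card : ℕ) : ℝ) := by
        intro t
        have h1 := card_sdiff_add_card_inter A (D t)
        rw [hDi] at h1
        have h2 : (((A \ D t).card : ℕ) : ℝ) + ((∑ i, (A ∩ G t i).card : ℕ) : ℝ) = A.card := by
          exact_mod_cast h1
        push_cast at h2
        linarith
      have hF : ∀ t : Fin (m + 1) → Fin T', (A \ D t).card = ⌊α * (D t)ᶜ.card⌋₊ →
          0 ≤ α * (D t)ᶜ.card - (A \ D t).card ∧ α * (D t)ᶜ.card - (A \ D t).card < 1 := by
        intro t ht
        have h0 : 0 ≤ α * ((D t)ᶜ.card : ℝ) := by positivity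
        have h1 := Nat.floor_le h0
        have h2 := Nat.lt_floor_add_one (α * ((D t)ᶜ.card : ℝ))
        rw [← ht] at h1 h2
        constructor <;> linarith
      obtain ⟨f1, f2⟩ := hF t ht.2
      obtain ⟨f3, f4⟩ := hF t' ht'.2
      rw [hm, ha] at f1 f2
      rw [hm, ha] at f3 f4
      have e1 := hsumc (fun _ x => (s : ℝ) * (x : ℕ))
      have e2 := hsumc (fun j x => (((A ∩ g j (s * x)).card : ℕ) : ℝ))
      have hi' : t i = t' i := by
        by_contra hne
        have hne' : (t i : ℕ) ≠ (t' i : ℕ) := fun h => hne (Fin.ext h)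
        have hgap : ((t i : ℕ) : ℝ) + 1 ≤ (t' i : ℕ) ∨ ((t' i : ℕ) : ℝ) + 1 ≤ (t i : ℕ) := by
          rcases lt_or_gt_of_ne hne' with h | h
          · left; exact_mod_cast h
          · right; exact_mod_cast h
        have hs0 : (0 : ℝ) ≤ s := Nat.cast_nonneg _
        have hcase : ((((A ∩ g i (s * t i)).card : ℕ) : ℝ) - ((A ∩ g i (s * t' i)).card : ℕ) =
            s * ((t i : ℕ) : ℝ) - s * (t' i : ℕ)) ∨
            ((((A ∩ g i (s * t i)).card : ℕ) : ℝ) - ((A ∩ g i (s * t' i)).card : ℕ) = 0) := by
          rcases hi with hi | hi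
          · left
            have k1 : A ∩ g i (s * t i) = g i (s * t i) :=
              inter_eq_right.mpr ((hGs t i).1.trans hi)
            have k2 : A ∩ g i (s * t' i) = g i (s * t' i) :=
              inter_eq_right.mpr ((hGs t' i).1.trans hi)
            have k3 := (hGs t i).2
            have k4 := (hGs t' i).2
            simp only [hG] at k3 k4
            rw [k1, k2, k3, k4]
            push_cast
            ring
          · right
            have k1 : A ∩ g i (s * t i) = ∅ := by
              rw [← disjoint_iff_inter_eq_empty]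
              exact hi.symm.mono_right (hGs t i).1
            have k2 : A ∩ g i (s * t' i) = ∅ := by
              rw [← disjoint_iff_inter_eq_empty]
              exact hi.symm.mono_right (hGs t' i).1
            rw [k1, k2]
            simp
        simp only [hG] at f1 f2 f3 f4
        rcases hcase with hc | hc <;> rcases hgap with hg' | hg'
        · nlinarith
        · nlinarith
        · nlinarith
        · nlinarith
      funext j
      by_cases hji : j = i
      · rw [hji]; exact hi'
      · exact hj j hji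
  have hsum : ∑ t, partCount p α (D t) ≤ (traces p).card * T' ^ m := by
    calc ∑ t, partCount p α (D t)
        = ∑ t : Fin (m + 1) → Fin T', ∑ A ∈ traces p,
            (if (A \ D t).card = ⌊α * (D t)ᶜ.card⌋₊ then 1 else 0) := by
          apply sum_congr rfl
          intro t _
          unfold partCount
          rw [card_filter]
      _ = ∑ A ∈ traces p, ∑ t : Fin (m + 1) → Fin T',
            (if (A \ D t).card = ⌊α * (D t)ᶜ.card⌋₊ then 1 else 0) := sum_comm
      _ ≤ ∑ A ∈ traces p, T' ^ m := by
          apply sum_le_sum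
          intro A hA
          rw [← card_filter]
          exact hfew A hA
      _ = _ := by rw [sum_const, smul_eq_mul]
  have hex : ∃ t, partCount p α (D t) * T' ≤ (traces p).card := by
    by_contra hcon
    push Not at hcon
    haveI : Nonempty (Fin T') := ⟨⟨0, hT⟩⟩
    have h1 : ∑ _t : Fin (m + 1) → Fin T', (traces p).card <
        ∑ t : Fin (m + 1) → Fin T', partCount p α (D t) * T' :=
      sum_lt_sum_of_nonempty univ_nonempty (fun t _ => hcon t)
    rw [sum_const, card_univ, Fintype.card_fun, Fintype.card_fin, Fintype.card_fin, smul_eq_mul,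
      ← sum_mul] at h1
    have h2 := Nat.mul_le_mul_right T' hsum
    have h3 : (traces p).card * T' ^ m * T' = T' ^ (m + 1) * (traces p).card := by ring
    omega
  obtain ⟨t, ht⟩ := hex
  exact ⟨D t, hDle t, ht⟩

end Pool.Agent.V11122.Hd
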