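import Pool.Agent.V11122.Hd.Fam

/-! The hyperplanes through `d` of the points. -/

set_option autoImplicit false

namespace Pool.Agent.V11122.Hd

open Finset

variable {d n : ℕ}

open scoped Classical in
/-- the pairs of `d` points and one open side of a hyperplane through them -/
noncomputable def facets (p : Fin n → (Fin d → ℝ)) : Finset (Finset (Fin n) × Finset (Fin n)) :=
  univ.filter (fun τ => τ.1.card = d ∧ ∃ (w : (Fin d → ℝ) →ₗ[ℝ] ℝ) (β : ℝ), w ≠ 0 ∧
    (∀ t ∈ τ.1, w (p t) = β) ∧ ∀ t, t ∈ τ.2 ↔ β < w (p t))

theorem facets_trace {p : Fin n → (Fin d → ℝ)} {τ : Finset (Fin n) × Finset (Fin n)}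
    (h : τ ∈ facets p) : τ.2 ∈ traces p := by
  classical
  unfold facets at h
  obtain ⟨-, w, β, h1, -, h3⟩ := (mem_filter.mp h).2
  unfold traces
  exact mem_filter.mpr ⟨mem_univ _, w, β, h1, h3⟩

theorem facets_card {p : Fin n → (Fin d → ℝ)} (hp : GenPos p) : (facets p).card ≤ 2 * n ^ d := by
  classical
  have h1 : (facets p).card ≤ 2 * ((facets p).image Prod.fst).card := by
    apply card_le_mul_card_image
    intro T hT
    obtain ⟨⟨T1, A0⟩, hA0, rfl⟩ := mem_image.mp hT
    have hA0' := hA0
    unfold facets at hA0'
    obtain ⟨hc, w, β, hw0, hw1, hw2⟩ := (mem_filter.mp hA0').2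
    simp only at hc hw1 hw2 ⊢
    refine le_trans (card_le_card (t := {(T1, A0), (T1, univ.filter fun t => w (p t) < β)}) ?_)
      card_le_two
    rintro ⟨T2, A⟩ hA
    rw [mem_filter] at hA
    obtain ⟨hA, rfl⟩ := hA
    unfold facets at hA
    obtain ⟨-, w', β', hv0, hv1, hv2⟩ := (mem_filter.mp hA).2
    simp only at hv1 hv2 hc hw1
    rw [mem_insert, mem_singleton]
    by_cases hx : ∃ x, x ∉ T2
    · obtain ⟨x, hx⟩ := hx
      have hcx : (insert x T2).card = d + 1 := by rw [card_insert_of_notMem hx, hc]
      have hplane : ∀ (u : (Fin d → ℝ) →ₗ[ℝ] ℝ) (r : ℝ), (∀ t ∈ insert x T2, u (p t) = r) → u = 0 := by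
        intro u r hu
        by_contra hne
        have h2 := hp u hne r
        have h3 : (insert x T2).card ≤ (univ.filter (fun t => u (p t) = r)).card :=
          card_le_card fun t ht => mem_filter.mpr ⟨mem_univ _, hu t ht⟩
        omega
      have hwx : w (p x) ≠ β := by
        intro h
        apply hw0
        apply hplane w β
        intro t ht
        rcases mem_insert.mp ht with rfl | ht
        · exact h
        · exact hw1 t ht
      have hD : w (p x) - β ≠ 0 := sub_ne_zero.mpr hwx
      set l : ℝ := (w' (p x) - β') / (w (p x) - β) with hl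
      have hlx : l * (w (p x) - β) = w' (p x) - β' := by
        rw [hl]
        field_simp
      have hW := hplane (w' - l • w) (β' - l * β) (by
        intro t ht
        rw [LinearMap.sub_apply, LinearMap.smul_apply, smul_eq_mul]
        rcases mem_insert.mp ht with rfl | ht
        · linarith
        · rw [hv1 t ht, hw1 t ht])
      have hw' : ∀ y, w' y = l * w y := by
        intro y
        have := congrArg (fun u : (Fin d → ℝ) →ₗ[ℝ] ℝ => u y) hW
        simp only [LinearMap.sub_apply, LinearMap.smul_apply, smul_eq_mul,
          LinearMap.zero_apply] at this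
        linarith
      have hβ' : β' = l * β := by
        have := hw' (p x)
        linarith
      have hl0 : l ≠ 0 := by
        intro h0
        apply hv0
        refine LinearMap.ext fun y => ?_
        rw [hw' y, h0, zero_mul, LinearMap.zero_apply]
      rcases lt_or_gt_of_ne hl0 with hneg | hpos
      · right
        have : A = univ.filter fun t => w (p t) < β := by
          ext t
          rw [hv2 t, mem_filter, hw', hβ']
          constructor
          · intro h
            refine ⟨mem_univ _, ?_⟩
            by_contra hcon
            push Not at hcon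
            nlinarith
          · rintro ⟨-, h⟩
            nlinarith
        rw [this]
      · left
        have : A = A0 := by
          ext t
          rw [hv2 t, hw2 t, hw', hβ']
          exact mul_lt_mul_iff_right₀ hpos
        rw [this]
    · push Not at hx
      left
      have e1 : A = ∅ := by
        ext t
        rw [hv2 t, hv1 t (hx t)]
        simp
      have e2 : A0 = ∅ := by
        ext t
        rw [hw2 t, hw1 t (hx t)]
        simp
      rw [e1, e2]
  have h2 : ((facets p).image Prod.fst).card ≤ n ^ d := by
    calc ((facets p).image Prod.fst).card ≤ (powersetCard d (univ : Finset (Fin n))).card := by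
          apply card_le_card
          intro T hT
          obtain ⟨τ, hτ, rfl⟩ := mem_image.mp hT
          unfold facets at hτ
          exact mem_powersetCard.mpr ⟨subset_univ _, (mem_filter.mp hτ).2.1⟩
      _ = n.choose d := by rw [card_powersetCard, card_univ, Fintype.card_fin]
      _ ≤ n ^ d := Nat.choose_le_pow n d
  omega

end Pool.Agent.V11122.Hd
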