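import Pool.Agent.V11122.Hd.Main

/-! The averaging argument for arbitrary families of half-space sets. -/

set_option autoImplicit false

namespace Pool.Agent.V11122.Hd

open Finset

variable {d n : ℕ}

open scoped Classical in
/-- the number of members of a family of sets that contain exactly `⌊α m⌋` of the `m` points outside `D` -/
noncomputable def famCount {ι : Type} (𝒯 : Finset ι) (𝒜 : ι → Finset (Fin n)) (α : ℝ) (D : Finset (Fin n)) : ℕ :=
  (𝒯.filter (fun τ => (𝒜 τ \ D).card = ⌊α * Dᶜ.card⌋₊)).card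

theorem avg_fam {ι : Type} {𝒯 : Finset ι} {𝒜 : ι → Finset (Fin n)} {α : ℝ} (hα : 0 ≤ α) {s : ℕ} (hs1 : 1 ≤ s * α)
    (hs2 : 1 ≤ s * (1 - α)) {m : ℕ} {C : Fin (m + 1) → Finset (Fin n)}
    (hdis : ∀ i j, i ≠ j → Disjoint (C i) (C j))
    (hmiss : ∀ τ ∈ 𝒯, ∃ i, C i ⊆ 𝒜 τ ∨ Disjoint (C i) (𝒜 τ)) {T' : ℕ} (hT : 0 < T')
    (hsize : ∀ i, s * (T' - 1) ≤ (C i).card) :
    ∃ D : Finset (Fin n), D.card ≤ (m + 1) * (s * (T' - 1)) ∧
      famCount 𝒯 𝒜 α D * T' ≤ 𝒯.card := by
  classical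
  obtain ⟨g, hg⟩ := exists_sb C
  set G : (Fin (m + 1) → Fin T') → Fin (m + 1) → Finset (Fin n) := fun t i => g i (s * t i) with hG
  have hle : ∀ (i : Fin (m + 1)) (x : Fin T'), s * (x : ℕ) ≤ s * (T' - 1) := by
    intro i x
    have := x.2
    exact Nat.mul_le_mul_left _ (by omega)
  have hGs : ∀ t i, G t i ⊆ C i ∧ (G t i).card = s * t i := fun t i =>
    hg i _ ((hle i (t i)).trans (hsize i))
  set D : (Fin (m + 1) → Fin T') → Finset (Fin n) := fun t => univ.biUnion (G t) with hDdef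
  have hGd : ∀ t, ∀ i j, i ≠ j → Disjoint (G t i) (G t j) := fun t i j hij =>
    (hdis i j hij).mono (hGs t i).1 (hGs t j).1
  have hDc : ∀ t, (D t).card = ∑ i, s * (t i : ℕ) := by
    intro t
    rw [hDdef]
    simp only
    rw [card_biUnion (fun i _ j _ hij => hGd t i j hij)]
    exact sum_congr rfl fun i _ => (hGs t i).2
  have hDi : ∀ (S : Finset (Fin n)) (t : Fin (m + 1) → Fin T'),
      (S ∩ D t).card = ∑ i, (S ∩ G t i).card := by
    intro S t
    rw [hDdef]
    simp only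
    rw [inter_biUnion, card_biUnion]
    intro i _ j _ hij
    exact (hGd t i j hij).mono inter_subset_right inter_subset_right
  have hDle : ∀ t, (D t).card ≤ (m + 1) * (s * (T' - 1)) := by
    intro t
    rw [hDc]
    calc ∑ i, s * (t i : ℕ) ≤ ∑ _i : Fin (m + 1), s * (T' - 1) :=
          sum_le_sum fun i _ => hle i (t i)
      _ = (m + 1) * (s * (T' - 1)) := by
          rw [sum_const, card_univ, Fintype.card_fin, smul_eq_mul]
  have hfew : ∀ τ ∈ 𝒯, (univ.filter (fun t : Fin (m + 1) → Fin T' =>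
      (𝒜 τ \ D t).card = ⌊α * (D t)ᶜ.card⌋₊)).card ≤ T' ^ m := by
    intro τ hτ
    obtain ⟨i, hi⟩ := hmiss τ hτ
    generalize 𝒜 τ = A at hi ⊢
    have hcard : Fintype.card ({j : Fin (m + 1) // j ≠ i} → Fin T') = T' ^ m := by
      rw [Fintype.card_fun, Fintype.card_fin]
      congr 1
      simp
    rw [← hcard, ← card_univ]
    apply card_le_card_of_injOn (fun t => fun j : {j : Fin (m + 1) // j ≠ i} => t j)
    · intro t _
      exact mem_coe.mpr (mem_univ _)
    · intro t ht t' ht' h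
      rw [mem_coe, mem_filter] at ht ht'
      have hj : ∀ j, j ≠ i → t j = t' j := fun j hj => congrFun h ⟨j, hj⟩
      -- the sums
      have hsumc : ∀ f : Fin (m + 1) → Fin T' → ℝ,
          ∑ j, f j (t j) - ∑ j, f j (t' j) = f i (t i) - f i (t' i) := by
        intro f
        rw [← add_sum_erase _ _ (mem_univ i), ← add_sum_erase _ (fun j => f j (t' j)) (mem_univ i)]
        have : ∑ j ∈ univ.erase i, f j (t j) = ∑ j ∈ univ.erase i, f j (t' j) := by
          apply sum_congr rfl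
          intro j hj'
          rw [hj j (ne_of_mem_erase hj')]
        rw [this]
        ring
      have hm : ∀ t : Fin (m + 1) → Fin T', (((D t)ᶜ.card : ℕ) : ℝ) =
          n - ∑ j, (s : ℝ) * (t j : ℕ) := by
        intro t
        have h1 := card_add_card_compl (D t)
        rw [Fintype.card_fin, hDc] at h1
        have h2 : ((∑ i, s * (t i : ℕ) : ℕ) : ℝ) + ((D t)ᶜ.card : ℕ) = n := by exact_mod_cast h1
        push_cast at h2
        linarith
      have ha : ∀ t : Fin (m + 1) → Fin T', (((A \ D t).card : ℕ) : ℝ) =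
          A.card - ∑ j, (((A ∩ G t j).card : ℕ) : ℝ) := by
        intro t
        have h1 := card_sdiff_add_card_inter A (D t)
        rw [hDi] at h1
        have h2 : (((A \ D t).card : ℕ) : ℝ) + ((∑ i, (A ∩ G t i).card : ℕ) : ℝ) = A.card := by
          exact_mod_cast h1
        push_cast at h2
        linarith
      have hF : ∀ t : Fin (m + 1) → Fin T', (A \ D t).card = ⌊α * (D t)ᶜ.card⌋₊ →
          0 ≤ α * (D t)ᶜ.card - (A \ D t).card ∧ α * (D t)ᶜ.card - (A \ D t).card < 1 := by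
        intro t ht
        have h0 : 0 ≤ α * ((D t)ᶜ.card : ℝ) := by positivity
        have h1 := Nat.floor_le h0
        have h2 := Nat.lt_floor_add_one (α * ((D t)ᶜ.card : ℝ))
        rw [← ht] at h1 h2
        constructor <;> linarith
      obtain ⟨f1, f2⟩ := hF t ht.2
      obtain ⟨f3, f4⟩ := hF t' ht'.2
      rw [hm, ha] at f1 f2
      rw [hm, ha] at f3 f4
      have e1 := hsumc (fun _ x => (s : ℝ) * (x : ℕ))
      have e2 := hsumc (fun j x => (((A ∩ g j (s * x)).card : ℕ) : ℝ))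
      have hi' : t i = t' i := by
        by_contra hne
        have hne' : (t i : ℕ) ≠ (t' i : ℕ) := fun h => hne (Fin.ext h)
        have hgap : ((t i : ℕ) : ℝ) + 1 ≤ (t' i : ℕ) ∨ ((t' i : ℕ) : ℝ) + 1 ≤ (t i : ℕ) := by
          rcases lt_or_gt_of_ne hne' with h | h
          · left; exact_mod_cast h
          · right; exact_mod_cast h
        have hs0 : (0 : ℝ) ≤ s := Nat.cast_nonneg _
        have hcase : ((((A ∩ g i (s * t i)).card : ℕ) : ℝ) - ((A ∩ g i (s * t' i)).card : ℕ) =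
            s * ((t i : ℕ) : ℝ) - s * (t' i : ℕ)) ∨
            ((((A ∩ g i (s * t i)).card : ℕ) : ℝ) - ((A ∩ g i (s * t' i)).card : ℕ) = 0) := by
          rcases hi with hi | hi
          · left
            have k1 : A ∩ g i (s * t i) = g i (s * t i) :=
              inter_eq_right.mpr ((hGs t i).1.trans hi)
            have k2 : A ∩ g i (s * t' i) = g i (s * t' i) :=
              inter_eq_right.mpr ((hGs t' i).1.trans hi)
            have k3 := (hGs t i).2
            have k4 := (hGs t' i).2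
            simp only [hG] at k3 k4
            rw [k1, k2, k3, k4]
            push_cast
            ring
          · right
            have k1 : A ∩ g i (s * t i) = ∅ := by
              rw [← disjoint_iff_inter_eq_empty]
              exact hi.symm.mono_right (hGs t i).1
            have k2 : A ∩ g i (s * t' i) = ∅ := by
              rw [← disjoint_iff_inter_eq_empty]
              exact hi.symm.mono_right (hGs t' i).1
            rw [k1, k2]
            simp
        simp only [hG] at f1 f2 f3 f4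
        rcases hcase with hc | hc <;> rcases hgap with hg' | hg'
        · nlinarith
        · nlinarith
        · nlinarith
        · nlinarith
      funext j
      by_cases hji : j = i
      · rw [hji]; exact hi'
      · exact hj j hji
  have hsum : ∑ t, famCount 𝒯 𝒜 α (D t) ≤ 𝒯.card * T' ^ m := by
    calc ∑ t, famCount 𝒯 𝒜 α (D t)
        = ∑ t : Fin (m + 1) → Fin T', ∑ τ ∈ 𝒯,
            (if (𝒜 τ \ D t).card = ⌊α * (D t)ᶜ.card⌋₊ then 1 else 0) := by
          apply sum_congr rfl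
          intro t _
          unfold famCount
          rw [card_filter]
      _ = ∑ τ ∈ 𝒯, ∑ t : Fin (m + 1) → Fin T',
            (if (𝒜 τ \ D t).card = ⌊α * (D t)ᶜ.card⌋₊ then 1 else 0) := sum_comm
      _ ≤ ∑ τ ∈ 𝒯, T' ^ m := by
          apply sum_le_sum
          intro τ hτ
          rw [← card_filter]
          exact hfew τ hτ
      _ = _ := by rw [sum_const, smul_eq_mul]
  have hex : ∃ t, famCount 𝒯 𝒜 α (D t) * T' ≤ 𝒯.card := by
    by_contra hcon
    push Not at hcon
    haveI : Nonempty (Fin T') := ⟨⟨0, hT⟩⟩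
    have h1 : ∑ _t : Fin (m + 1) → Fin T', 𝒯.card <
        ∑ t : Fin (m + 1) → Fin T', famCount 𝒯 𝒜 α (D t) * T' :=
      sum_lt_sum_of_nonempty univ_nonempty (fun t _ => hcon t)
    rw [sum_const, card_univ, Fintype.card_fun, Fintype.card_fin, Fintype.card_fin, smul_eq_mul,
      ← sum_mul] at h1
    have h2 := Nat.mul_le_mul_right T' hsum
    have h3 : 𝒯.card * T' ^ m * T' = T' ^ (m + 1) * 𝒯.card := by ring
    omega
  obtain ⟨t, ht⟩ := hex
  exact ⟨D t, hDle t, ht⟩

theorem main_fam (hd : 0 < d) : ∃ K : ℝ, 0 < K ∧ ∀ (n : ℕ) (p : Fin n → (Fin d → ℝ)), 0 < n →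
    GenPos p → ∀ (ι : Type) (𝒯 : Finset ι) (𝒜 : ι → Finset (Fin n)), (∀ τ ∈ 𝒯, 𝒜 τ ∈ traces p) →
    (𝒯.card : ℝ) ≤ 2 * ((d + 1) * (n : ℝ) ^ d) →
    ∀ α δ : ℝ, 0 < α → α < 1 → 0 < δ → δ ≤ 1 →
      ∃ D : Finset (Fin n), (D.card : ℝ) ≤ δ * n ∧
        (famCount 𝒯 𝒜 α D : ℝ) ≤ K * (n : ℝ) ^ (d - 1) / (δ * min α (1 - α)) := by
  classical
  set N : ℕ := (univ : Finset (Finset (Fin (d + 1)))).card with hN
  set M : ℕ := (2 * (d + 1)) ^ N with hM
  have hM0 : 0 < M := by positivity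
  set n₀ : ℕ := (d + 1) * (d * M + 2) with hn₀
  set K : ℝ := 8 * ((d : ℝ) + 1) ^ 2 * M + 2 * ((d : ℝ) + 1) * n₀ with hK
  have hMr : (0 : ℝ) < M := by exact_mod_cast hM0
  have hK0 : 0 < K := by positivity
  refine ⟨K, hK0, ?_⟩
  intro n p hn hp ι 𝒯 𝒜 hfam htr α δ hα0 hα1 hδ0 hδ1
  set β : ℝ := min α (1 - α) with hβ
  have hβ0 : 0 < β := lt_min hα0 (by linarith)
  have hβα : β ≤ α := min_le_left _ _
  have hβα' : β ≤ 1 - α := min_le_right _ _
  have hβ1 : β ≤ 1 := by linarith
  have hnr : (0 : ℝ) < n := by exact_mod_cast hn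
  have hpow : (n : ℝ) ^ d = n * (n : ℝ) ^ (d - 1) := by
    rw [← pow_succ']
    congr 1
    omega
  have hP0 : 0 < (n : ℝ) ^ (d - 1) := by positivity
  have hδβ : 0 < δ * β := by positivity
  rcases lt_or_ge n n₀ with hlt | hge
  · refine ⟨∅, by simp; positivity, ?_⟩
    have h1 : (famCount 𝒯 𝒜 α ∅ : ℝ) ≤ 𝒯.card := by
      unfold famCount
      exact_mod_cast card_filter_le _ _
    rw [le_div_iff₀ hδβ]
    have h2 : δ * β ≤ 1 := by nlinarith
    have h3 : (0 : ℝ) ≤ famCount 𝒯 𝒜 α ∅ := Nat.cast_nonneg _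
    have h4 : (n : ℝ) ≤ n₀ := by exact_mod_cast hlt.le
    calc (famCount 𝒯 𝒜 α ∅ : ℝ) * (δ * β) ≤ (famCount 𝒯 𝒜 α ∅ : ℝ) * 1 :=
          mul_le_mul_of_nonneg_left h2 h3
      _ ≤ 2 * ((d + 1) * (n : ℝ) ^ d) := by linarith
      _ = (2 * ((d : ℝ) + 1) * n) * (n : ℝ) ^ (d - 1) := by rw [hpow]; ring
      _ ≤ K * (n : ℝ) ^ (d - 1) := by
          apply mul_le_mul_of_nonneg_right _ hP0.le
          have h5 : 2 * ((d : ℝ) + 1) * n ≤ 2 * ((d : ℝ) + 1) * n₀ :=
            mul_le_mul_of_nonneg_left h4 (by positivity)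
          have h6 : 0 ≤ 8 * ((d : ℝ) + 1) ^ 2 * M := by positivity
          linarith
  · set h : ℕ := n / (d + 1) with hh
    have hh1 : (d + 1) * h ≤ n := Nat.mul_div_le n (d + 1)
    have hh2 : d * M + 2 ≤ h := by
      rw [hh, Nat.le_div_iff_mul_le (by omega)]
      calc (d * M + 2) * (d + 1) = n₀ := by rw [hn₀]; ring
        _ ≤ n := hge
    have hh3 : n < (d + 1) * (h + 1) := by
      rw [hh]
      exact Nat.lt_mul_div_succ n (by omega)
    obtain ⟨S, hS1, hS2⟩ := blocks d h n hh1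
    obtain ⟨S', k1, k2, k3⟩ := separate hd hp S univ (by
      intro j
      rw [hS2 j]
      change d * M ≤ h
      omega)
    have k2' : ∀ j, h ≤ M * (S' j).card := by
      intro j
      have := k2 j
      rw [hS2 j] at this
      exact this
    have hSr : ∀ j, (n : ℝ) ≤ 2 * ((d : ℝ) + 1) * M * (S' j).card := by
      intro j
      have h1 : n ≤ 2 * (d + 1) * (M * (S' j).card) := by
        have h2 := k2' j
        have h3 : (d + 1) * (h + 1) ≤ (d + 1) * (2 * h) := Nat.mul_le_mul_left _ (by omega)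
        have h4 : 2 * (d + 1) * h ≤ 2 * (d + 1) * (M * (S' j).card) := Nat.mul_le_mul_left _ h2
        have h5 : (d + 1) * (2 * h) = 2 * (d + 1) * h := by ring
        omega
      have h2 : (n : ℝ) ≤ ((2 * (d + 1) * (M * (S' j).card) : ℕ) : ℝ) := by exact_mod_cast h1
      push_cast at h2
      linarith
    set s : ℕ := ⌈1 / β⌉₊ with hs
    have hs1 : 1 / β ≤ s := Nat.le_ceil _
    have hs2 : (s : ℝ) ≤ 2 / β := by
      have h1 := Nat.ceil_lt_add_one (by positivity : 0 ≤ 1 / β)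
      have h2 : (1 : ℝ) ≤ 1 / β := by
        rw [le_div_iff₀ hβ0]
        linarith
      have h3 : 2 / β = 1 / β + 1 / β := by ring
      rw [h3]
      linarith
    have hs0 : (0 : ℝ) < s := lt_of_lt_of_le (by positivity) hs1
    have hsβ : 1 ≤ s * β := by
      rw [div_le_iff₀ hβ0] at hs1
      exact hs1
    set x : ℝ := δ * n / (2 * ((d : ℝ) + 1) * M * s) with hx
    have hx0 : 0 < x := by positivity
    have hfl : (⌊x⌋₊ : ℝ) ≤ x := Nat.floor_le hx0.le
    have hsx : (s : ℝ) * x = δ * n / (2 * ((d : ℝ) + 1) * M) := by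
      rw [hx]
      field_simp
    have hdis : ∀ i j, i ≠ j → Disjoint (S' i) (S' j) := fun i j hij =>
      (hS1 i j hij).mono (k1 i) (k1 j)
    have hmiss : ∀ τ ∈ 𝒯, ∃ i, S' i ⊆ 𝒜 τ ∨ Disjoint (S' i) (𝒜 τ) := by
      intro τ hτ
      have hA := hfam τ hτ
      unfold traces at hA
      obtain ⟨w, r, hw0, hw⟩ := (mem_filter.mp hA).2
      obtain ⟨j, hj⟩ := miss (S := S') (fun I => k3 I (mem_univ _)) w hw0 r
      refine ⟨j, ?_⟩
      rcases hj with hj | hj
      · exact Or.inl fun t ht => (hw t).mpr (hj t ht)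
      · right
        rw [disjoint_left]
        intro t ht htA
        exact hj t ht ((hw t).mp htA)
    have hbd : (s : ℝ) * ⌊x⌋₊ ≤ δ * n / (2 * ((d : ℝ) + 1) * M) := by
      rw [← hsx]
      exact mul_le_mul_of_nonneg_left hfl hs0.le
    obtain ⟨D, hD1, hD2⟩ := avg_fam (α := α) (s := s) hα0.le (by nlinarith) (by nlinarith) hdis hmiss
      (T' := ⌊x⌋₊ + 1) (Nat.succ_pos _) (by
        intro i
        rw [Nat.add_sub_cancel]
        have h1 : ((s * ⌊x⌋₊ : ℕ) : ℝ) ≤ (S' i).card := by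
          push_cast
          refine hbd.trans ?_
          rw [div_le_iff₀ (by positivity)]
          have h2 := hSr i
          nlinarith
        exact_mod_cast h1)
    rw [Nat.add_sub_cancel] at hD1
    refine ⟨D, ?_, ?_⟩
    · have h1 : (D.card : ℝ) ≤ ((d : ℝ) + 1) * (s * ⌊x⌋₊) := by exact_mod_cast hD1
      refine h1.trans ?_
      have h2 : ((d : ℝ) + 1) * (s * ⌊x⌋₊) ≤
          ((d : ℝ) + 1) * (δ * n / (2 * ((d : ℝ) + 1) * M)) :=
        mul_le_mul_of_nonneg_left hbd (by positivity)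
      refine h2.trans ?_
      have h3 : ((d : ℝ) + 1) * (δ * n / (2 * ((d : ℝ) + 1) * M)) = δ * n / (2 * M) := by
        field_simp
      rw [h3, div_le_iff₀ (by positivity)]
      have h4 : (1 : ℝ) ≤ M := by exact_mod_cast hM0
      have h5 : 0 < δ * n := by positivity
      nlinarith
    · have h1 : (famCount 𝒯 𝒜 α D : ℝ) * x ≤ 2 * ((d + 1) * (n : ℝ) ^ d) := by
        have h2 : (famCount 𝒯 𝒜 α D : ℝ) * (⌊x⌋₊ + 1) ≤ 𝒯.card := by exact_mod_cast hD2
        have h3 : x ≤ (⌊x⌋₊ : ℝ) + 1 := (Nat.lt_floor_add_one x).le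
        have h4 : (0 : ℝ) ≤ famCount 𝒯 𝒜 α D := Nat.cast_nonneg _
        have h5 := mul_le_mul_of_nonneg_left h3 h4
        linarith
      rw [le_div_iff₀ hδβ]
      -- multiply by `n / (δ β x)`
      have h6 : δ * n = x * (2 * ((d : ℝ) + 1) * M * s) := by
        rw [hx]
        field_simp
      have h7 : (famCount 𝒯 𝒜 α D : ℝ) * (δ * n) ≤
          (2 * ((d + 1) * (n : ℝ) ^ d)) * (2 * ((d : ℝ) + 1) * M * s) := by
        rw [h6, ← mul_assoc]
        exact mul_le_mul_of_nonneg_right h1 (by positivity)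
      have h8 : (s : ℝ) * β ≤ 2 := by
        rw [le_div_iff₀ hβ0] at hs2
        exact hs2
      have h9 : ((famCount 𝒯 𝒜 α D : ℝ) * (δ * β)) * n ≤
          (8 * ((d : ℝ) + 1) ^ 2 * M * (n : ℝ) ^ (d - 1)) * n := by
        calc ((famCount 𝒯 𝒜 α D : ℝ) * (δ * β)) * n = ((famCount 𝒯 𝒜 α D : ℝ) * (δ * n)) * β := by
              ring
          _ ≤ ((2 * ((d + 1) * (n : ℝ) ^ d)) * (2 * ((d : ℝ) + 1) * M * s)) * β :=
              mul_le_mul_of_nonneg_right h7 hβ0.le
          _ = (4 * ((d : ℝ) + 1) ^ 2 * M * (n : ℝ) ^ (d - 1) * n) * (s * β) := by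
              rw [hpow]; ring
          _ ≤ (4 * ((d : ℝ) + 1) ^ 2 * M * (n : ℝ) ^ (d - 1) * n) * 2 :=
              mul_le_mul_of_nonneg_left h8 (by positivity)
          _ = _ := by ring
      have h10 := le_of_mul_le_mul_right h9 hnr
      refine h10.trans ?_
      apply mul_le_mul_of_nonneg_right _ hP0.le
      have : 0 ≤ 2 * ((d : ℝ) + 1) * n₀ := by positivity
      linarith

end Pool.Agent.V11122.Hd
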