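import Pool.Agent.V11122.Hd.Del

/-! The bound for all dimensions. -/

set_option autoImplicit false

namespace Pool.Agent.V11122.Hd

open Finset

variable {d n : ℕ}

/-- disjoint sets of given size -/
theorem blocks (m h n : ℕ) (hh : (m + 1) * h ≤ n) :
    ∃ S : Fin (m + 1) → Finset (Fin n), (∀ i j, i ≠ j → Disjoint (S i) (S j)) ∧
      ∀ i, (S i).card = h := by
  classical
  have hlt : ∀ (j : Fin (m + 1)) (x : Fin h), h * (j : ℕ) + x < n := by
    intro j x
    have h1 := x.2
    have h2 : (j : ℕ) + 1 ≤ m + 1 := j.2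
    have h3 : h * ((j : ℕ) + 1) ≤ h * (m + 1) := Nat.mul_le_mul_left _ h2
    have h4 : h * ((j : ℕ) + 1) = h * j + h := by ring
    have h5 : h * (m + 1) = (m + 1) * h := by ring
    omega
  refine ⟨fun j => univ.image (fun x : Fin h => (⟨h * (j : ℕ) + x, hlt j x⟩ : Fin n)), ?_, ?_⟩
  · intro i j hij
    rw [disjoint_left]
    intro t h1 h2
    obtain ⟨x, -, hx⟩ := mem_image.mp h1
    obtain ⟨y, -, hy⟩ := mem_image.mp h2
    have h3 : h * (i : ℕ) + x = h * (j : ℕ) + y := by
      have := hx.trans hy.symm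
      exact congrArg Fin.val this
    have hx2 := x.2
    have hy2 := y.2
    apply hij
    apply Fin.ext
    rcases lt_trichotomy (i : ℕ) (j : ℕ) with h | h | h
    · exfalso
      nlinarith
    · exact h
    · exfalso
      nlinarith
  · intro j
    rw [card_image_of_injective, card_univ, Fintype.card_fin]
    intro x y hxy
    have := congrArg Fin.val hxy
    simp only at this
    apply Fin.ext
    omega

theorem main (hd : 0 < d) : ∃ K : ℝ, 0 < K ∧ ∀ (n : ℕ) (p : Fin n → (Fin d → ℝ)), 0 < n →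
    GenPos p → ∀ α δ : ℝ, 0 < α → α < 1 → 0 < δ → δ ≤ 1 →
      ∃ D : Finset (Fin n), (D.card : ℝ) ≤ δ * n ∧
        (partCount p α D : ℝ) ≤ K * (n : ℝ) ^ (d - 1) / (δ * min α (1 - α)) := by
  classical
  set N : ℕ := (univ : Finset (Finset (Fin (d + 1)))).card with hN
  set M : ℕ := (2 * (d + 1)) ^ N with hM
  have hM0 : 0 < M := by positivity
  set n₀ : ℕ := (d + 1) * (d * M + 2) with hn₀
  set K : ℝ := 8 * ((d : ℝ) + 1) ^ 2 * M + 2 * ((d : ℝ) + 1) * n₀ with hK
  have hMr : (0 : ℝ) < M := by exact_mod_cast hM0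
  have hK0 : 0 < K := by positivity
  refine ⟨K, hK0, ?_⟩
  intro n p hn hp α δ hα0 hα1 hδ0 hδ1
  set β : ℝ := min α (1 - α) with hβ
  have hβ0 : 0 < β := lt_min hα0 (by linarith)
  have hβα : β ≤ α := min_le_left _ _
  have hβα' : β ≤ 1 - α := min_le_right _ _
  have hβ1 : β ≤ 1 := by linarith
  have hnr : (0 : ℝ) < n := by exact_mod_cast hn
  have htr : ((traces p).card : ℝ) ≤ 2 * ((d + 1) * (n : ℝ) ^ d) := by
    exact_mod_cast traces_card p hn
  have hpow : (n : ℝ) ^ d = n * (n : ℝ) ^ (d - 1) := by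
    rw [← pow_succ']
    congr 1
    omega
  have hP0 : 0 < (n : ℝ) ^ (d - 1) := by positivity
  have hδβ : 0 < δ * β := by positivity
  rcases lt_or_ge n n₀ with hlt | hge
  · refine ⟨∅, by simp; positivity, ?_⟩
    have h1 : (partCount p α ∅ : ℝ) ≤ (traces p).card := by
      unfold partCount
      exact_mod_cast card_filter_le _ _
    rw [le_div_iff₀ hδβ]
    have h2 : δ * β ≤ 1 := by nlinarith
    have h3 : (0 : ℝ) ≤ partCount p α ∅ := Nat.cast_nonneg _
    have h4 : (n : ℝ) ≤ n₀ := by exact_mod_cast hlt.le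
    calc (partCount p α ∅ : ℝ) * (δ * β) ≤ (partCount p α ∅ : ℝ) * 1 :=
          mul_le_mul_of_nonneg_left h2 h3
      _ ≤ 2 * ((d + 1) * (n : ℝ) ^ d) := by linarith
      _ = (2 * ((d : ℝ) + 1) * n) * (n : ℝ) ^ (d - 1) := by rw [hpow]; ring
      _ ≤ K * (n : ℝ) ^ (d - 1) := by
          apply mul_le_mul_of_nonneg_right _ hP0.le
          have h5 : 2 * ((d : ℝ) + 1) * n ≤ 2 * ((d : ℝ) + 1) * n₀ :=
            mul_le_mul_of_nonneg_left h4 (by positivity)
          have h6 : 0 ≤ 8 * ((d : ℝ) + 1) ^ 2 * M := by positivity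
          linarith
  · set h : ℕ := n / (d + 1) with hh
    have hh1 : (d + 1) * h ≤ n := Nat.mul_div_le n (d + 1)
    have hh2 : d * M + 2 ≤ h := by
      rw [hh, Nat.le_div_iff_mul_le (by omega)]
      calc (d * M + 2) * (d + 1) = n₀ := by rw [hn₀]; ring
        _ ≤ n := hge
    have hh3 : n < (d + 1) * (h + 1) := by
      rw [hh]
      exact Nat.lt_mul_div_succ n (by omega)
    obtain ⟨S, hS1, hS2⟩ := blocks d h n hh1
    obtain ⟨S', k1, k2, k3⟩ := separate hd hp S univ (by
      intro j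
      rw [hS2 j]
      change d * M ≤ h
      omega)
    have k2' : ∀ j, h ≤ M * (S' j).card := by
      intro j
      have := k2 j
      rw [hS2 j] at this
      exact this
    have hSr : ∀ j, (n : ℝ) ≤ 2 * ((d : ℝ) + 1) * M * (S' j).card := by
      intro j
      have h1 : n ≤ 2 * (d + 1) * (M * (S' j).card) := by
        have h2 := k2' j
        have h3 : (d + 1) * (h + 1) ≤ (d + 1) * (2 * h) := Nat.mul_le_mul_left _ (by omega)
        have h4 : 2 * (d + 1) * h ≤ 2 * (d + 1) * (M * (S' j).card) := Nat.mul_le_mul_left _ h2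
        have h5 : (d + 1) * (2 * h) = 2 * (d + 1) * h := by ring
        omega
      have h2 : (n : ℝ) ≤ ((2 * (d + 1) * (M * (S' j).card) : ℕ) : ℝ) := by exact_mod_cast h1
      push_cast at h2
      linarith
    set s : ℕ := ⌈1 / β⌉₊ with hs
    have hs1 : 1 / β ≤ s := Nat.le_ceil _
    have hs2 : (s : ℝ) ≤ 2 / β := by
      have h1 := Nat.ceil_lt_add_one (by positivity : 0 ≤ 1 / β)
      have h2 : (1 : ℝ) ≤ 1 / β := by
        rw [le_div_iff₀ hβ0]
        linarith
      have h3 : 2 / β = 1 / β + 1 / β := by ring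
      rw [h3]
      linarith
    have hs0 : (0 : ℝ) < s := lt_of_lt_of_le (by positivity) hs1
    have hsβ : 1 ≤ s * β := by
      rw [div_le_iff₀ hβ0] at hs1
      exact hs1
    set x : ℝ := δ * n / (2 * ((d : ℝ) + 1) * M * s) with hx
    have hx0 : 0 < x := by positivity
    have hfl : (⌊x⌋₊ : ℝ) ≤ x := Nat.floor_le hx0.le
    have hsx : (s : ℝ) * x = δ * n / (2 * ((d : ℝ) + 1) * M) := by
      rw [hx]
      field_simp
    have hdis : ∀ i j, i ≠ j → Disjoint (S' i) (S' j) := fun i j hij =>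
      (hS1 i j hij).mono (k1 i) (k1 j)
    have hmiss : ∀ A ∈ traces p, ∃ i, S' i ⊆ A ∨ Disjoint (S' i) A := by
      intro A hA
      unfold traces at hA
      obtain ⟨w, r, hw0, hw⟩ := (mem_filter.mp hA).2
      obtain ⟨j, hj⟩ := miss (S := S') (fun I => k3 I (mem_univ _)) w hw0 r
      refine ⟨j, ?_⟩
      rcases hj with hj | hj
      · exact Or.inl fun t ht => (hw t).mpr (hj t ht)
      · right
        rw [disjoint_left]
        intro t ht htA
        exact hj t ht ((hw t).mp htA)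
    have hbd : (s : ℝ) * ⌊x⌋₊ ≤ δ * n / (2 * ((d : ℝ) + 1) * M) := by
      rw [← hsx]
      exact mul_le_mul_of_nonneg_left hfl hs0.le
    obtain ⟨D, hD1, hD2⟩ := avg (α := α) (s := s) hα0.le (by nlinarith) (by nlinarith) hdis hmiss
      (T' := ⌊x⌋₊ + 1) (Nat.succ_pos _) (by
        intro i
        rw [Nat.add_sub_cancel]
        have h1 : ((s * ⌊x⌋₊ : ℕ) : ℝ) ≤ (S' i).card := by
          push_cast
          refine hbd.trans ?_
          rw [div_le_iff₀ (by positivity)]
          have h2 := hSr i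
          nlinarith
        exact_mod_cast h1)
    rw [Nat.add_sub_cancel] at hD1
    refine ⟨D, ?_, ?_⟩
    · have h1 : (D.card : ℝ) ≤ ((d : ℝ) + 1) * (s * ⌊x⌋₊) := by exact_mod_cast hD1
      refine h1.trans ?_
      have h2 : ((d : ℝ) + 1) * (s * ⌊x⌋₊) ≤
          ((d : ℝ) + 1) * (δ * n / (2 * ((d : ℝ) + 1) * M)) :=
        mul_le_mul_of_nonneg_left hbd (by positivity)
      refine h2.trans ?_
      have h3 : ((d : ℝ) + 1) * (δ * n / (2 * ((d : ℝ) + 1) * M)) = δ * n / (2 * M) := by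
        field_simp
      rw [h3, div_le_iff₀ (by positivity)]
      have h4 : (1 : ℝ) ≤ M := by exact_mod_cast hM0
      have h5 : 0 < δ * n := by positivity
      nlinarith
    · have h1 : (partCount p α D : ℝ) * x ≤ 2 * ((d + 1) * (n : ℝ) ^ d) := by
        have h2 : (partCount p α D : ℝ) * (⌊x⌋₊ + 1) ≤ (traces p).card := by exact_mod_cast hD2
        have h3 : x ≤ (⌊x⌋₊ : ℝ) + 1 := (Nat.lt_floor_add_one x).le
        have h4 : (0 : ℝ) ≤ partCount p α D := Nat.cast_nonneg _
        have h5 := mul_le_mul_of_nonneg_left h3 h4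
        linarith
      rw [le_div_iff₀ hδβ]
      -- multiply by `n / (δ β x)`
      have h6 : δ * n = x * (2 * ((d : ℝ) + 1) * M * s) := by
        rw [hx]
        field_simp
      have h7 : (partCount p α D : ℝ) * (δ * n) ≤
          (2 * ((d + 1) * (n : ℝ) ^ d)) * (2 * ((d : ℝ) + 1) * M * s) := by
        rw [h6, ← mul_assoc]
        exact mul_le_mul_of_nonneg_right h1 (by positivity)
      have h8 : (s : ℝ) * β ≤ 2 := by
        rw [le_div_iff₀ hβ0] at hs2
        exact hs2
      have h9 : ((partCount p α D : ℝ) * (δ * β)) * n ≤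
          (8 * ((d : ℝ) + 1) ^ 2 * M * (n : ℝ) ^ (d - 1)) * n := by
        calc ((partCount p α D : ℝ) * (δ * β)) * n = ((partCount p α D : ℝ) * (δ * n)) * β := by
              ring
          _ ≤ ((2 * ((d + 1) * (n : ℝ) ^ d)) * (2 * ((d : ℝ) + 1) * M * s)) * β :=
              mul_le_mul_of_nonneg_right h7 hβ0.le
          _ = (4 * ((d : ℝ) + 1) ^ 2 * M * (n : ℝ) ^ (d - 1) * n) * (s * β) := by
              rw [hpow]; ring
          _ ≤ (4 * ((d : ℝ) + 1) ^ 2 * M * (n : ℝ) ^ (d - 1) * n) * 2 :=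
              mul_le_mul_of_nonneg_left h8 (by positivity)
          _ = _ := by ring
      have h10 := le_of_mul_le_mul_right h9 hnr
      refine h10.trans ?_
      apply mul_le_mul_of_nonneg_right _ hP0.le
      have : 0 ≤ 2 * ((d : ℝ) + 1) * n₀ := by positivity
      linarith

end Pool.Agent.V11122.Hd
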