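import Pool.Agent.V11122.Hd.Facet
import Pool.Agent.V11122.Hv.Shift

/-! Random deletions in any dimension. -/

set_option autoImplicit false

namespace Pool.Agent.V11122.Hd

open Finset Pool.Agent.Y344.KD Pool.Agent.V11122.Hv

variable {d n : ℕ}

/-- the probability bound -/
theorem pc_small {r : ℝ} (h0 : 0 < r) (h1 : r ≤ 1 / 2) {c s s' : ℕ} (hn : 0 < n)
    (hs : s + s' + d = n) : pc c s s' r ≤ (8 + 2 * d) / Real.sqrt (r * n) := by
  have h1' : r ≤ 1 := by linarith
  have hn0 : (0 : ℝ) < n := by exact_mod_cast hn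
  have hrn : 0 < r * n := by positivity
  have hsq : 0 < Real.sqrt (r * n) := Real.sqrt_pos.mpr hrn
  have hd0 : (0 : ℝ) ≤ d := Nat.cast_nonneg _
  by_cases h4 : n < 2 * d ∨ n < 4
  · have hone : pc c s s' r ≤ 1 := pc_le_left h0.le h1' fun k => bb_le_one k s h0.le h1'
    refine hone.trans ?_
    rw [le_div_iff₀ hsq, one_mul]
    have h5 : (n : ℝ) ≤ 4 + 2 * d := by
      rcases h4 with h | h
      · have : (n : ℝ) ≤ 2 * d := by exact_mod_cast h.le
        linarith
      · have : (n : ℝ) ≤ 4 := by exact_mod_cast h.le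
        linarith
    rw [Real.sqrt_le_left (by linarith)]
    nlinarith
  · push Not at h4
    have key : ∀ s : ℕ, n ≤ 4 * s → ∀ k, bb k s r ≤ (8 + 2 * d) / Real.sqrt (r * n) := by
      intro s hs k
      have hs1 : 1 ≤ s := by omega
      refine (bb_sup h0 h1 hs1).trans ?_
      have hs0 : (0 : ℝ) < s := by exact_mod_cast hs1
      have hrs : 0 < r * s := by positivity
      rw [div_le_div_iff₀ (Real.sqrt_pos.mpr hrs) hsq]
      have h2 : Real.sqrt (r * n) ≤ 2 * Real.sqrt (r * s) := by
        have e : (2 : ℝ) * Real.sqrt (r * s) = Real.sqrt (4 * (r * s)) := by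
          rw [Real.sqrt_mul (by norm_num : (0 : ℝ) ≤ 4)]
          congr 1
          rw [show (4 : ℝ) = 2 ^ 2 by norm_num]
          exact (Real.sqrt_sq (by norm_num)).symm
        rw [e]
        apply Real.sqrt_le_sqrt
        have : (n : ℝ) ≤ 4 * s := by exact_mod_cast hs
        nlinarith
      have h3 : 0 ≤ d * Real.sqrt (r * s) := by positivity
      nlinarith
    rcases le_total s' s with h | h
    · exact pc_le_left h0.le h1' (key s (by omega))
    · exact pc_le_right h0.le h1' (key s' (by omega))

open scoped Classical in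
/-- the number of surviving `d`-subsets with exactly half of the survivors on one side -/
noncomputable def hfac (p : Fin n → (Fin d → ℝ)) (D : Finset (Fin n)) : ℕ :=
  ((facets p).filter (fun τ => Disjoint τ.1 D ∧ (τ.2 \ D).card = Dᶜ.card / 2)).card

theorem mean_hfac {p : Fin n → (Fin d → ℝ)} (hp : GenPos p) (hn : 0 < n) (hd : 0 < d) {r : ℝ}
    (h0 : 0 < r) (h1 : r ≤ 1 / 2) :
    ∑ D : Finset (Fin n), wt r D * hfac p D ≤
      2 * (n : ℝ) ^ d * (2 * ((8 + 2 * d) / Real.sqrt (r * n))) := by
  classical
  have h1' : r ≤ 1 := by linarith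
  set B : ℝ := (8 + 2 * d) / Real.sqrt (r * n) with hB
  have hB0 : 0 ≤ B := by positivity
  have e1 : ∀ D : Finset (Fin n), wt r D * (hfac p D : ℝ) =
      ∑ τ ∈ facets p, (if Disjoint τ.1 D ∧ (τ.2 \ D).card = Dᶜ.card / 2 then wt r D else 0) := by
    intro D
    unfold hfac
    rw [← sum_filter, sum_const, nsmul_eq_mul, mul_comm]
  rw [sum_congr rfl (fun D _ => e1 D), sum_comm]
  have key : ∀ τ ∈ facets p, ∑ D : Finset (Fin n),
      (if Disjoint τ.1 D ∧ (τ.2 \ D).card = Dᶜ.card / 2 then wt r D else 0) ≤ 2 * B := by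
    intro τ hτ
    unfold facets at hτ
    obtain ⟨hc, w, β, -, hw1, hw2⟩ := (mem_filter.mp hτ).2
    set S' : Finset (Fin n) := univ \ (τ.2 ∪ τ.1) with hS'
    have hd1 : Disjoint τ.2 τ.1 := by
      rw [disjoint_left]
      intro t h2 h3
      have h4 := (hw2 t).mp h2
      rw [hw1 t h3] at h4
      exact lt_irrefl _ h4
    have hd2 : Disjoint τ.2 S' := by
      rw [disjoint_left]
      intro t h2 h3
      rw [hS', mem_sdiff] at h3
      exact h3.2 (mem_union_left _ h2)
    have hcard : τ.2.card + S'.card + d = n := by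
      have h2 : S'.card + (τ.2 ∪ τ.1).card = n := by
        have := card_sdiff_add_card_eq_card (subset_univ (τ.2 ∪ τ.1))
        rwa [card_univ, Fintype.card_fin] at this
      rw [card_union_of_disjoint hd1, hc] at h2
      omega
    have j1 := joint_c d hd2 r
    have j2 := joint_c (d - 1) hd2 r
    have b1 := pc_small (d := d) (n := n) (c := d) h0 h1 hn hcard
    have b2 := pc_small (d := d) (n := n) (c := d - 1) h0 h1 hn hcard
    have hle : ∑ D : Finset (Fin n),
        (if Disjoint τ.1 D ∧ (τ.2 \ D).card = Dᶜ.card / 2 then wt r D else 0) ≤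
        ∑ D : Finset (Fin n), ((if (τ.2 \ D).card = (S' \ D).card + d then wt r D else 0) +
          (if (τ.2 \ D).card = (S' \ D).card + (d - 1) then wt r D else 0)) := by
      apply sum_le_sum
      intro D _
      have hw := wt_nonneg h0.le h1' D
      by_cases h : Disjoint τ.1 D ∧ (τ.2 \ D).card = Dᶜ.card / 2
      · rw [if_pos h]
        have hDc : Dᶜ.card = (τ.2 \ D).card + (S' \ D).card + d := by
          have e2 : Dᶜ = ((τ.2 \ D) ∪ (S' \ D)) ∪ τ.1 := by
            ext t
            rw [mem_compl, mem_union, mem_union, mem_sdiff, mem_sdiff, hS', mem_sdiff, mem_union]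
            have h3 : t ∈ τ.1 → t ∉ D := fun h4 h5 => (disjoint_left.mp h.1) h4 h5
            have h4 : t ∈ (univ : Finset (Fin n)) := mem_univ t
            tauto
          rw [e2, card_union_of_disjoint, card_union_of_disjoint, hc]
          · exact hd2.mono sdiff_subset sdiff_subset
          · rw [disjoint_left]
            intro t h3 h4
            rw [mem_union, mem_sdiff, mem_sdiff, hS', mem_sdiff, mem_union] at h3
            rcases h3 with h3 | h3
            · exact (disjoint_left.mp hd1) h3.1 h4
            · exact h3.1.2 (Or.inr h4)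
        have h5 := h.2
        by_cases h6 : (τ.2 \ D).card = (S' \ D).card + d
        · rw [if_pos h6]
          split_ifs <;> linarith
        · have h7 : (τ.2 \ D).card = (S' \ D).card + (d - 1) := by omega
          rw [if_neg h6, if_pos h7]
          linarith
      · rw [if_neg h]
        apply add_nonneg <;> split_ifs <;> first | exact hw | exact le_rfl
    refine hle.trans ?_
    rw [sum_add_distrib, j1, j2]
    linarith
  refine (sum_le_sum key).trans ?_
  rw [sum_const, nsmul_eq_mul]
  apply mul_le_mul_of_nonneg_right _ (by positivity)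
  exact_mod_cast facets_card hp

end Pool.Agent.V11122.Hd
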