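import Pool.Agent.V11135.Sel.Center

/-! Classes of points such that every hyperplane has one of them on one side. -/

set_option autoImplicit false

namespace Pool.Agent.V11122.Hd

open Finset Pool.Agent.V11135.Sel

variable {d n : ℕ}

open scoped Classical in
/-- no hyperplane contains more than `d` of the points -/
def GenPos (p : Fin n → (Fin d → ℝ)) : Prop :=
  ∀ u : (Fin d → ℝ) →ₗ[ℝ] ℝ, u ≠ 0 → ∀ r : ℝ, (univ.filter (fun t => u (p t) = r)).card ≤ d

/-- the classes with index in `I` are above, the others below a hyperplane -/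
def Sep (p : Fin n → (Fin d → ℝ)) (S : Fin (d + 1) → Finset (Fin n)) (I : Finset (Fin (d + 1))) :
    Prop :=
  ∃ (w : (Fin d → ℝ) →ₗ[ℝ] ℝ) (β : ℝ), (∀ j ∈ I, ∀ t ∈ S j, β < w (p t)) ∧
    ∀ j ∉ I, ∀ t ∈ S j, w (p t) < β

theorem step (hd : 0 < d) {p : Fin n → (Fin d → ℝ)} (hp : GenPos p)
    (S : Fin (d + 1) → Finset (Fin n)) (hS : ∀ j, d * (2 * (d + 1)) ≤ (S j).card)
    (I : Finset (Fin (d + 1))) :
    ∃ S' : Fin (d + 1) → Finset (Fin n), (∀ j, S' j ⊆ S j) ∧
      (∀ j, (S j).card ≤ (2 * (d + 1)) * (S' j).card) ∧ Sep p S' I := by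
  classical
  have hne : ∀ j, (S j).Nonempty := by
    intro j
    rw [← card_pos]
    have h1 := hS j
    have h2 : 0 < d * (2 * (d + 1)) := by positivity
    omega
  choose c hc using fun i => centerpoint p (S i) (hne i)
  have h01 : (Fin.last d) ≠ (0 : Fin (d + 1)) := by
    intro h
    have := congrArg Fin.val h
    simp at this
    omega
  obtain ⟨u, hu0, hu⟩ := exists_functional hd (fun j => c j - c (Fin.last d)) 0 (Fin.last d) h01
  set b : ℝ := u (c (Fin.last d)) with hb
  have huc : ∀ j, j ≠ 0 → u (c j) = b := by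
    intro j hj
    by_cases h : j = Fin.last d
    · rw [h]
    · have := hu j hj h
      rw [map_sub] at this
      linarith
  have up : ∀ j, j ≠ 0 → (S j).card ≤ (d + 1) * ((S j).filter fun t => b ≤ u (p t)).card := by
    intro j hj
    have := hc j u
    rwa [huc j hj] at this
  have dn : ∀ j, j ≠ 0 → (S j).card ≤ (d + 1) * ((S j).filter fun t => u (p t) ≤ b).card := by
    intro j hj
    have := hc j (-u)
    simp only [LinearMap.neg_apply, neg_le_neg_iff] at this
    rwa [huc j hj] at this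
  have h0 : (S 0).card ≤ ((S 0).filter fun t => b ≤ u (p t)).card +
      ((S 0).filter fun t => u (p t) ≤ b).card := by
    rw [← card_union_add_card_inter, ← filter_or]
    refine le_trans (card_le_card ?_) (Nat.le_add_right _ _)
    intro t ht
    exact mem_filter.mpr ⟨ht, le_total _ _⟩
  -- orientation
  have key : ∃ (w : (Fin d → ℝ) →ₗ[ℝ] ℝ) (β : ℝ), w ≠ 0 ∧
      (∀ j ∈ I, (S j).card ≤ (d + 1) * ((S j).filter fun t => β ≤ w (p t)).card) ∧
      ∀ j ∉ I, (S j).card ≤ (d + 1) * ((S j).filter fun t => w (p t) ≤ β).card := by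
    have two : ∀ x y : ℕ, x ≤ 2 * y → x ≤ (d + 1) * y := fun x y h =>
      h.trans (Nat.mul_le_mul_right _ (by omega))
    have nb1 : ∀ j, ((S j).filter fun t => -b ≤ (-u) (p t)) = (S j).filter fun t => u (p t) ≤ b := by
      intro j
      apply filter_congr
      intro t _
      rw [LinearMap.neg_apply, neg_le_neg_iff]
    have nb2 : ∀ j, ((S j).filter fun t => (-u) (p t) ≤ -b) = (S j).filter fun t => b ≤ u (p t) := by
      intro j
      apply filter_congr
      intro t _
      rw [LinearMap.neg_apply, neg_le_neg_iff]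
    rcases le_total ((S 0).filter fun t => u (p t) ≤ b).card
      ((S 0).filter fun t => b ≤ u (p t)).card with h | h
    · have hmaj : (S 0).card ≤ (d + 1) * ((S 0).filter fun t => b ≤ u (p t)).card :=
        two _ _ (by omega)
      by_cases hI : (0 : Fin (d + 1)) ∈ I
      · refine ⟨u, b, hu0, fun j hj => ?_, fun j hj => ?_⟩
        · by_cases hj0 : j = 0
          · rw [hj0]; exact hmaj
          · exact up j hj0
        · exact dn j (fun hj0 => hj (hj0 ▸ hI))
      · refine ⟨-u, -b, neg_ne_zero.2 hu0, fun j hj => ?_, fun j hj => ?_⟩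
        · rw [nb1]
          exact dn j (fun hj0 => hI (hj0 ▸ hj))
        · rw [nb2]
          by_cases hj0 : j = 0
          · rw [hj0]; exact hmaj
          · exact up j hj0
    · have hmaj : (S 0).card ≤ (d + 1) * ((S 0).filter fun t => u (p t) ≤ b).card :=
        two _ _ (by omega)
      by_cases hI : (0 : Fin (d + 1)) ∈ I
      · refine ⟨-u, -b, neg_ne_zero.2 hu0, fun j hj => ?_, fun j hj => ?_⟩
        · rw [nb1]
          by_cases hj0 : j = 0
          · rw [hj0]; exact hmaj
          · exact dn j hj0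
        · rw [nb2]
          exact up j (fun hj0 => hj (hj0 ▸ hI))
      · refine ⟨u, b, hu0, fun j hj => ?_, fun j hj => ?_⟩
        · exact up j (fun hj0 => hI (hj0 ▸ hj))
        · by_cases hj0 : j = 0
          · rw [hj0]; exact hmaj
          · exact dn j hj0
  obtain ⟨w, β, hw0, hw1, hw2⟩ := key
  have hon := hp w hw0 β
  have fin : ∀ x y z : ℕ, x ≤ (d + 1) * y → y ≤ z + d → d * (2 * (d + 1)) ≤ x →
      x ≤ 2 * (d + 1) * z := by
    intro x y z h1 h2 h3
    have h4 : (d + 1) * y ≤ (d + 1) * (z + d) := Nat.mul_le_mul_left _ h2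
    nlinarith
  refine ⟨fun j => if j ∈ I then (S j).filter fun t => β < w (p t) else
    (S j).filter fun t => w (p t) < β, fun j => ?_, fun j => ?_, w, β, fun j hj t ht => ?_,
    fun j hj t ht => ?_⟩
  · dsimp only
    split_ifs <;> exact filter_subset _ _
  · dsimp only
    split_ifs with h
    · apply fin _ _ _ (hw1 j h) _ (hS j)
      refine le_trans (card_le_card (t := ((S j).filter fun t => β < w (p t)) ∪
        univ.filter fun t => w (p t) = β) ?_) ((card_union_le _ _).trans (Nat.add_le_add_left hon _))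
      intro t ht
      obtain ⟨h3, h4⟩ := mem_filter.mp ht
      rw [mem_union]
      rcases h4.lt_or_eq with h5 | h5
      · exact Or.inl (mem_filter.mpr ⟨h3, h5⟩)
      · exact Or.inr (mem_filter.mpr ⟨mem_univ _, h5.symm⟩)
    · apply fin _ _ _ (hw2 j h) _ (hS j)
      refine le_trans (card_le_card (t := ((S j).filter fun t => w (p t) < β) ∪
        univ.filter fun t => w (p t) = β) ?_) ((card_union_le _ _).trans (Nat.add_le_add_left hon _))
      intro t ht
      obtain ⟨h3, h4⟩ := mem_filter.mp ht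
      rw [mem_union]
      rcases h4.lt_or_eq with h5 | h5
      · exact Or.inl (mem_filter.mpr ⟨h3, h5⟩)
      · exact Or.inr (mem_filter.mpr ⟨mem_univ _, h5⟩)
  · dsimp only at ht
    rw [if_pos hj] at ht
    exact (mem_filter.mp ht).2
  · dsimp only at ht
    rw [if_neg hj] at ht
    exact (mem_filter.mp ht).2

theorem Sep.mono {p : Fin n → (Fin d → ℝ)} {S S' : Fin (d + 1) → Finset (Fin n)}
    {I : Finset (Fin (d + 1))} (h : Sep p S I) (hS : ∀ j, S' j ⊆ S j) : Sep p S' I := by
  obtain ⟨w, β, h1, h2⟩ := h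
  exact ⟨w, β, fun j hj t ht => h1 j hj t (hS j ht), fun j hj t ht => h2 j hj t (hS j ht)⟩

theorem separate (hd : 0 < d) {p : Fin n → (Fin d → ℝ)} (hp : GenPos p)
    (S : Fin (d + 1) → Finset (Fin n)) (F : Finset (Finset (Fin (d + 1))))
    (hS : ∀ j, d * (2 * (d + 1)) ^ F.card ≤ (S j).card) :
    ∃ S' : Fin (d + 1) → Finset (Fin n), (∀ j, S' j ⊆ S j) ∧
      (∀ j, (S j).card ≤ (2 * (d + 1)) ^ F.card * (S' j).card) ∧ ∀ I ∈ F, Sep p S' I := by
  classical
  induction F using Finset.induction_on with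
  | empty => exact ⟨S, fun j => Subset.refl _, fun j => by simp, by simp⟩
  | insert I F hI ih =>
    rw [card_insert_of_notMem hI] at hS ⊢
    have hpos : 0 < (2 * (d + 1)) ^ F.card := by positivity
    obtain ⟨S1, h1, h2, h3⟩ := ih (fun j => by
      refine le_trans (Nat.mul_le_mul_left _ ?_) (hS j)
      exact Nat.pow_le_pow_right (by omega) (Nat.le_succ _))
    have hS1 : ∀ j, d * (2 * (d + 1)) ≤ (S1 j).card := by
      intro j
      have h4 := (hS j).trans (h2 j)
      rw [pow_succ] at h4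
      apply Nat.le_of_mul_le_mul_left _ hpos
      calc (2 * (d + 1)) ^ F.card * (d * (2 * (d + 1))) =
            d * ((2 * (d + 1)) ^ F.card * (2 * (d + 1))) := by ring
        _ ≤ _ := h4
    obtain ⟨S2, k1, k2, k3⟩ := step hd hp S1 hS1 I
    refine ⟨S2, fun j => (k1 j).trans (h1 j), fun j => ?_, fun J hJ => ?_⟩
    · rw [pow_succ, mul_assoc]
      exact (h2 j).trans (Nat.mul_le_mul_left _ (k2 j))
    · rcases mem_insert.mp hJ with rfl | hJ
      · exact k3
      · exact (h3 J hJ).mono k1

theorem miss {p : Fin n → (Fin d → ℝ)} {S : Fin (d + 1) → Finset (Fin n)}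
    (hsep : ∀ I : Finset (Fin (d + 1)), Sep p S I) (v : (Fin d → ℝ) →ₗ[ℝ] ℝ) (hv : v ≠ 0) (r : ℝ) :
    ∃ j, (∀ t ∈ S j, r < v (p t)) ∨ ∀ t ∈ S j, ¬ r < v (p t) := by
  classical
  by_contra hcon
  push Not at hcon
  choose a ha1 ha2 using fun j => (hcon j).1
  choose b hb1 hb2 using fun j => (hcon j).2
  have hx : ∀ j, ∃ x : Fin d → ℝ, v x = r ∧ ∀ (w : (Fin d → ℝ) →ₗ[ℝ] ℝ) (β : ℝ),
      ((β < w (p (a j)) ∧ β < w (p (b j))) → β < w x) ∧
      ((w (p (a j)) < β ∧ w (p (b j)) < β) → w x < β) := by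
    intro j
    have h1 := ha2 j
    have h2 := hb2 j
    have hD : 0 < v (p (b j)) - v (p (a j)) := by linarith
    set θ : ℝ := (r - v (p (a j))) / (v (p (b j)) - v (p (a j))) with hθ
    have hθ0 : 0 ≤ θ := div_nonneg (by linarith) hD.le
    have hθ1 : θ < 1 := by
      rw [hθ, div_lt_one hD]
      linarith
    have hθD : θ * (v (p (b j)) - v (p (a j))) = r - v (p (a j)) := by
      rw [hθ]
      field_simp
    refine ⟨(1 - θ) • p (a j) + θ • p (b j), ?_, fun w β => ⟨?_, ?_⟩⟩
    · rw [map_add, map_smul, map_smul, smul_eq_mul, smul_eq_mul]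
      linarith
    · rintro ⟨h3, h4⟩
      rw [map_add, map_smul, map_smul, smul_eq_mul, smul_eq_mul]
      nlinarith
    · rintro ⟨h3, h4⟩
      rw [map_add, map_smul, map_smul, smul_eq_mul, smul_eq_mul]
      nlinarith
  choose x hx1 hx2 using hx
  have hdep : ¬ AffineIndependent ℝ x := by
    intro h
    have htop := h.affineSpan_eq_top_iff_card_eq_finrank_add_one.2 (by
      rw [Fintype.card_fin, Module.finrank_fin_fun])
    have hall : ∀ y : Fin d → ℝ, v y = r := by
      intro y
      have hy : y ∈ affineSpan ℝ (Set.range x) := by rw [htop]; exact AffineSubspace.mem_top _ _ _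
      refine affineSpan_induction (p := fun y => v y = r) hy ?_ ?_
      · rintro _ ⟨j, rfl⟩
        exact hx1 j
      · intro c y1 y2 y3 h1 h2 h3
        rw [vadd_eq_add, vsub_eq_sub, map_add, map_smul, map_sub, h1, h2, h3]
        simp
    apply hv
    refine LinearMap.ext fun y => ?_
    have h1 := hall 0
    rw [map_zero] at h1
    rw [LinearMap.zero_apply, hall y, ← h1]
  obtain ⟨I, y, hy1, hy2⟩ := Convex.radon_partition hdep
  obtain ⟨w, β, hw1, hw2⟩ := hsep (univ.filter (fun j => j ∈ I))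
  have c1 : convexHull ℝ (x '' I) ⊆ {z | β < w z} := by
    apply convexHull_min
    · rintro _ ⟨j, hj, rfl⟩
      have hj' : j ∈ univ.filter (fun j => j ∈ I) := mem_filter.mpr ⟨mem_univ _, hj⟩
      exact (hx2 j w β).1 ⟨hw1 j hj' _ (ha1 j), hw1 j hj' _ (hb1 j)⟩
    · exact convex_halfSpace_gt (LinearMap.isLinear w) _
  have c2 : convexHull ℝ (x '' Iᶜ) ⊆ {z | w z < β} := by
    apply convexHull_min
    · rintro _ ⟨j, hj, rfl⟩
      have hj' : j ∉ univ.filter (fun j => j ∈ I) := fun h => hj (mem_filter.mp h).2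
      exact (hx2 j w β).2 ⟨hw2 j hj' _ (ha1 j), hw2 j hj' _ (hb1 j)⟩
    · exact convex_halfSpace_lt (LinearMap.isLinear w) _
  exact lt_asymm (show β < w y from c1 hy1) (show w y < β from c2 hy2)

end Pool.Agent.V11122.Hd
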