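import Pool.Agent.V11122.Hd.Sep

/-! The number of subsets of a point set cut off by half-spaces. -/

set_option autoImplicit false

namespace Pool.Agent.V11122.Hd

open Finset Pool.Agent.V11135.Sel

variable {d n : ℕ}

open scoped Classical in
/-- the sets of points in an open half-space -/
noncomputable def traces (p : Fin n → (Fin d → ℝ)) : Finset (Finset (Fin n)) :=
  univ.filter (fun A => ∃ (w : (Fin d → ℝ) →ₗ[ℝ] ℝ) (β : ℝ), w ≠ 0 ∧ ∀ t, t ∈ A ↔ β < w (p t))

theorem cut {p : Fin n → (Fin d → ℝ)} {Z : Finset (Fin n)} {I : Set Z}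
    (hI : (convexHull ℝ ((fun z : Z => p z) '' I) ∩ convexHull ℝ ((fun z : Z => p z) '' Iᶜ)).Nonempty)
    {A : Finset (Fin n)} (hA : A ∈ traces p) (h : ∀ z : Z, (z : Fin n) ∈ A ↔ z ∈ I) : False := by
  classical
  unfold traces at hA
  obtain ⟨w, β, -, hw⟩ := (mem_filter.mp hA).2
  obtain ⟨y, hy1, hy2⟩ := hI
  have c1 : convexHull ℝ ((fun z : Z => p z) '' I) ⊆ {z | β < w z} := by
    apply convexHull_min
    · rintro _ ⟨z, hz, rfl⟩
      exact (hw z).mp ((h z).mpr hz)
    · exact convex_halfSpace_gt (LinearMap.isLinear w) _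
  have c2 : convexHull ℝ ((fun z : Z => p z) '' Iᶜ) ⊆ {z | w z ≤ β} := by
    apply convexHull_min
    · rintro _ ⟨z, hz, rfl⟩
      exact not_lt.mp fun h' => hz ((h z).mp ((hw z).mpr h'))
    · exact convex_halfSpace_le (LinearMap.isLinear w) _
  exact absurd (show β < w y from c1 hy1) (not_lt.mpr (show w y ≤ β from c2 hy2))

theorem shat {p : Fin n → (Fin d → ℝ)} (t0 : Fin n) (ℬ : Finset (Finset (Fin n)))
    (hℬ : ℬ ⊆ traces p) (hu : (∀ A ∈ ℬ, t0 ∈ A) ∨ ∀ A ∈ ℬ, t0 ∉ A) {S : Finset (Fin n)}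
    (hS : ℬ.Shatters S) : S.card ≤ d := by
  classical
  by_contra hcon
  push Not at hcon
  have ht0 : t0 ∉ S := by
    intro h
    rcases hu with hu | hu
    · obtain ⟨A, hA, hSA⟩ := hS (empty_subset S)
      have : t0 ∈ S ∩ A := mem_inter.mpr ⟨h, hu A hA⟩
      rw [hSA] at this
      exact notMem_empty _ this
    · obtain ⟨A, hA, hSA⟩ := hS (Subset.refl S)
      have : t0 ∈ S ∩ A := by rw [hSA]; exact h
      exact hu A hA (mem_inter.mp this).2
  set Z : Finset (Fin n) := insert t0 S with hZ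
  have hZc : Z.card = S.card + 1 := card_insert_of_notMem ht0
  have hdep : ¬ AffineIndependent ℝ (fun z : Z => p z) := by
    intro h
    have h1 := h.card_le_finrank_succ
    have h2 : Module.finrank ℝ (vectorSpan ℝ (Set.range fun z : Z => p z)) ≤ d := by
      have := Submodule.finrank_le (vectorSpan ℝ (Set.range fun z : Z => p z))
      rwa [Module.finrank_fin_fun] at this
    rw [Fintype.card_coe] at h1
    omega
  obtain ⟨I, hI⟩ := Convex.radon_partition hdep
  have hZ0 : t0 ∈ Z := mem_insert_self _ _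
  -- the trace with given intersection with `Z`
  have main : ∀ J : Set Z, (convexHull ℝ ((fun z : Z => p z) '' J) ∩
      convexHull ℝ ((fun z : Z => p z) '' Jᶜ)).Nonempty →
      ((∀ A ∈ ℬ, t0 ∈ A) ∧ (⟨t0, hZ0⟩ : Z) ∈ J ∨ (∀ A ∈ ℬ, t0 ∉ A) ∧ (⟨t0, hZ0⟩ : Z) ∉ J) →
      False := by
    intro J hJ hor
    obtain ⟨A, hA, hSA⟩ := hS (t := S.filter (fun t => ∃ h : t ∈ Z, (⟨t, h⟩ : Z) ∈ J))
      (filter_subset _ _)
    refine cut hJ (hℬ hA) ?_
    rintro ⟨z, hz⟩
    rcases mem_insert.mp hz with h | h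
    · subst h
      rcases hor with ⟨h1, h2⟩ | ⟨h1, h2⟩
      · exact iff_of_true (h1 A hA) h2
      · exact iff_of_false (h1 A hA) h2
    · constructor
      · intro h1
        have h2 : z ∈ S ∩ A := mem_inter.mpr ⟨h, h1⟩
        rw [hSA] at h2
        exact (mem_filter.mp h2).2.2
      · intro h1
        have h2 : z ∈ S ∩ A := by
          rw [hSA]
          exact mem_filter.mpr ⟨h, hz, h1⟩
        exact (mem_inter.mp h2).2
  have hI' : (convexHull ℝ ((fun z : Z => p z) '' Iᶜ) ∩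
      convexHull ℝ ((fun z : Z => p z) '' Iᶜᶜ)).Nonempty := by
    rw [compl_compl, Set.inter_comm]
    exact hI
  by_cases h0 : (⟨t0, hZ0⟩ : Z) ∈ I
  · rcases hu with hu | hu
    · exact main I hI (Or.inl ⟨hu, h0⟩)
    · exact main Iᶜ hI' (Or.inr ⟨hu, fun h => h h0⟩)
  · rcases hu with hu | hu
    · exact main Iᶜ hI' (Or.inl ⟨hu, h0⟩)
    · exact main I hI (Or.inr ⟨hu, h0⟩)

theorem half_count {p : Fin n → (Fin d → ℝ)} (t0 : Fin n) (ℬ : Finset (Finset (Fin n)))
    (hℬ : ℬ ⊆ traces p) (hu : (∀ A ∈ ℬ, t0 ∈ A) ∨ ∀ A ∈ ℬ, t0 ∉ A) :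
    ℬ.card ≤ (d + 1) * n ^ d := by
  classical
  have hn : 0 < n := Fin.pos t0
  have hvc : ℬ.vcDim ≤ d := by
    unfold Finset.vcDim
    apply Finset.sup_le
    intro S hS
    exact shat t0 ℬ hℬ hu (mem_shatterer.mp hS)
  have h1 := (card_le_card_shatterer ℬ).trans card_shatterer_le_sum_vcDim
  refine h1.trans ?_
  rw [Fintype.card_fin]
  calc ∑ k ∈ Iic ℬ.vcDim, n.choose k ≤ ∑ k ∈ range (d + 1), n.choose k := by
        apply sum_le_sum_of_subset
        intro k hk
        rw [mem_Iic] at hk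
        rw [mem_range]
        omega
    _ ≤ ∑ _k ∈ range (d + 1), n ^ d := by
        apply sum_le_sum
        intro k hk
        rw [mem_range] at hk
        exact (Nat.choose_le_pow n k).trans (Nat.pow_le_pow_right hn (by omega))
    _ = _ := by rw [sum_const, card_range, smul_eq_mul]

theorem traces_card (p : Fin n → (Fin d → ℝ)) (hn : 0 < n) :
    (traces p).card ≤ 2 * ((d + 1) * n ^ d) := by
  classical
  set t0 : Fin n := ⟨0, hn⟩
  have h1 := half_count (p := p) t0 ((traces p).filter (fun A => t0 ∈ A)) (filter_subset _ _)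
    (Or.inl fun A hA => (mem_filter.mp hA).2)
  have h2 := half_count (p := p) t0 ((traces p).filter (fun A => ¬ t0 ∈ A)) (filter_subset _ _)
    (Or.inr fun A hA => (mem_filter.mp hA).2)
  have h3 := card_filter_add_card_filter_not (s := traces p) (fun A => t0 ∈ A)
  omega

end Pool.Agent.V11122.Hd
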